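import Pool.Agent.H75.PolyJ.Split
import Pool.Agent.H95.Poly.Gen

/-!
The ear lemma for counterclockwise simple polygons in general position: at a convex vertex `j`
either the two neighbours see each other, or `j` sees a reflex vertex `z` in the open triangle
of `j` and its neighbours.  There are at least three convex vertices.
-/

set_option autoImplicit false

namespace Pool.Agent.H81.FL

open Set Filter Topology Pool.Agent.H54.Fl Pool.Agent.H75.PolyJ Pool.Agent.H95.Poly

/-- the open segment between the vertices `i` and `j` lies inside -/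
def Dg (n : ℕ) (v : ℕ → ℝ × ℝ) (i j : ℕ) : Prop :=
  ∀ p ∈ openSegment ℝ (v i) (v j), p ∈ inner n v

lemma Dg.symm {n : ℕ} {v : ℕ → ℝ × ℝ} {i j : ℕ} (h : Dg n v i j) : Dg n v j i := by
  intro p hp
  rw [openSegment_symm] at hp
  exact h p hp

lemma cross {a b p q : ℝ × ℝ} (hp : 0 < orient a b p) (hq : orient a b q ≤ 0) :
    ∃ r ∈ segment ℝ p q, orient a b r = 0 := by
  set P := orient a b p with hP
  set Q := orient a b q with hQ
  have hd : 0 < P - Q := by linarith
  refine ⟨(-Q / (P - Q)) • p + (P / (P - Q)) • q,
    ⟨-Q / (P - Q), P / (P - Q), div_nonneg (by linarith) hd.le, div_nonneg hp.le hd.le, ?_, rfl⟩, ?_⟩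
  · field_simp
    ring
  · rw [orient_comb _ _ _ _ (by field_simp; ring), ← hP, ← hQ]
    field_simp
    ring

lemma orient_sum (u x w p : ℝ × ℝ) :
    orient u x p + orient x w p + orient w u p = orient u x w := by
  unfold orient; ring

lemma mem_seg_of {u x w r : ℝ × ℝ} (hD : 0 < orient u x w) (h1 : orient u x r = 0)
    (h2 : 0 ≤ orient x w r) (h3 : 0 ≤ orient w u r) : r ∈ segment ℝ u x := by
  have hs := orient_sum u x w r
  refine ⟨orient x w r / orient u x w, orient w u r / orient u x w, div_nonneg h2 hD.le,
    div_nonneg h3 hD.le, ?_, ?_⟩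
  · rw [← add_div, div_eq_one_iff_eq hD.ne']
    linarith
  · have e1 : orient u x w * r.1 = orient x w r * u.1 + orient w u r * x.1 + orient u x r * w.1 := by
      unfold orient; ring
    have e2 : orient u x w * r.2 = orient x w r * u.2 + orient w u r * x.2 + orient u x r * w.2 := by
      unfold orient; ring
    rw [h1] at e1 e2
    ext
    · simp only [Prod.fst_add, Prod.smul_fst, smul_eq_mul]
      field_simp
      linarith
    · simp only [Prod.snd_add, Prod.smul_snd, smul_eq_mul]
      field_simp
      linarith

lemma orient_nonneg_seg {a b p q r : ℝ × ℝ} (hr : r ∈ segment ℝ p q) (hp : 0 ≤ orient a b p)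
    (hq : 0 ≤ orient a b q) : 0 ≤ orient a b r := by
  obtain ⟨s, t, hs, ht, hst, rfl⟩ := hr
  rw [orient_comb _ _ _ _ hst]
  positivity

lemma orient_gt_seg {a b p q r : ℝ × ℝ} {c : ℝ} (hr : r ∈ segment ℝ p q) (hp : c < orient a b p)
    (hq : c < orient a b q) : c < orient a b r := by
  obtain ⟨s, t, hs, ht, hst, rfl⟩ := hr
  rw [orient_comb _ _ _ _ hst]
  have e : c = s * c + t * c := by rw [← add_mul, hst, one_mul]
  rcases eq_or_lt_of_le hs with h0 | h0
  · have : t = 1 := by linarith
    rw [this, ← h0]; linarith
  · have h1 := mul_lt_mul_of_pos_left hp h0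
    have h2 := mul_le_mul_of_nonneg_left hq.le ht
    linarith

lemma orient_le_seg {a b p q r : ℝ × ℝ} {c : ℝ} (hr : r ∈ segment ℝ p q) (hp : orient a b p ≤ c)
    (hq : orient a b q ≤ c) : orient a b r ≤ c := by
  obtain ⟨s, t, hs, ht, hst, rfl⟩ := hr
  rw [orient_comb _ _ _ _ hst]
  have e : c = s * c + t * c := by rw [← add_mul, hst, one_mul]
  have h1 := mul_le_mul_of_nonneg_left hp hs
  have h2 := mul_le_mul_of_nonneg_left hq ht
  linarith

lemma ray_left (x a p : ℝ × ℝ) (t : ℝ) :
    orient x a (x + t • (p - x)) = t * orient x a p := by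
  unfold orient
  simp only [Prod.fst_add, Prod.smul_fst, Prod.snd_add, Prod.smul_snd, smul_eq_mul, Prod.fst_sub,
    Prod.snd_sub]
  ring

section

variable {n : ℕ} {v : ℕ → ℝ × ℝ} (h : IsSimplePolygon n v)
include h

/-- If no vertex lies in the small triangle `f₁ > 0, f₂ > 0, f₃ > c` at the corner `j`, then the
curve does not meet it. -/
lemma small_free {j : ℕ} (hj : j < n) (hD : 0 < orient (v (pv n j)) (v j) (v (nx n j))) {c : ℝ}
    (hc : 0 ≤ c)
    (hZ : ∀ m < n, 0 < orient (v (pv n j)) (v j) (v m) → 0 < orient (v j) (v (nx n j)) (v m) →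
      orient (v (nx n j)) (v (pv n j)) (v m) ≤ c)
    {p : ℝ × ℝ} (hp : p ∈ curve n v) (h1 : 0 < orient (v (pv n j)) (v j) p)
    (h2 : 0 < orient (v j) (v (nx n j)) p) : orient (v (nx n j)) (v (pv n j)) p ≤ c := by
  by_contra h3
  push Not at h3
  obtain ⟨k, hk, hpk⟩ := hp
  have hn := pos h
  set u := v (pv n j) with hu
  set x := v j with hx
  set w := v (nx n j) with hw
  have kj : k ≠ j := by
    rintro rfl
    have := orient_of_mem hpk
    change orient x w p = 0 at this
    linarith
  have kpj : k ≠ pv n j := by
    rintro rfl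
    have := orient_of_mem hpk
    change orient (v (pv n j)) (v (nx n (pv n j))) p = 0 at this
    rw [nx_pv hj] at this
    linarith
  -- an endpoint `v m` of the edge with `f₃ > c`
  obtain ⟨m, hm, hseg, hm3⟩ : ∃ m < n, segment ℝ p (v m) ⊆ edge n v k ∧ c < orient w u (v m) := by
    by_cases hk3 : c < orient w u (v k)
    · refine ⟨k, hk, ?_, hk3⟩
      exact (convex_segment _ _).segment_subset hpk (left_mem_segment ℝ _ _)
    · refine ⟨nx n k, nx_lt hn k, ?_, ?_⟩
      · exact (convex_segment _ _).segment_subset hpk (right_mem_segment ℝ _ _)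
      · by_contra hk4
        push Not at hk3 hk4
        have := orient_le_seg hpk hk3 hk4
        linarith
  -- no point of the two sides with `f₃ > 0`
  have A1 : ∀ r ∈ edge n v k, orient u x r = 0 → 0 ≤ orient x w r → ¬ (0 < orient w u r) := by
    intro r hr hr1 hr2 hr3
    have hr4 : r ∈ edge n v (pv n j) := by
      rw [edge_eq, nx_pv hj]
      exact mem_seg_of hD hr1 hr2 hr3.le
    rcases edge_inter h hk (pv_lt hn j) kpj hr hr4 with ⟨-, h5⟩ | ⟨h5, -⟩
    · rw [h5, ← hu, orient_self_right] at hr3
      exact lt_irrefl _ hr3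
    · rw [nx_pv hj] at h5
      exact kj h5.symm
  have A2 : ∀ r ∈ edge n v k, orient x w r = 0 → 0 ≤ orient u x r → ¬ (0 < orient w u r) := by
    intro r hr hr1 hr2 hr3
    have hr4 : r ∈ edge n v j := by
      rw [edge_eq]
      have hD' : 0 < orient x w u := by rw [orient_cyc]; exact hD
      exact mem_seg_of hD' hr1 hr3.le hr2
    rcases edge_inter h hk hj kj hr hr4 with ⟨h5, -⟩ | ⟨h5, h6⟩
    · apply kpj
      rw [← h5, pv_nx hk]
    · rw [h6, ← h5, ← hw, orient_self_left] at hr3
      exact lt_irrefl _ hr3
  by_cases hm1 : 0 < orient u x (v m)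
  · -- then `f₂ ≤ 0` at `v m`
    have hm2 : orient x w (v m) ≤ 0 := by
      by_contra hm2
      push Not at hm2
      have := hZ m hm hm1 hm2
      linarith
    obtain ⟨r, hr, hr0⟩ := cross h2 hm2
    exact A2 r (hseg hr) hr0 (orient_nonneg_seg hr h1.le hm1.le)
      (lt_of_le_of_lt hc (orient_gt_seg hr h3 hm3))
  · push Not at hm1
    obtain ⟨r, hr, hr0⟩ := cross h1 hm1
    have hr3 := orient_gt_seg hr h3 hm3
    by_cases hr2 : 0 ≤ orient x w r
    · exact A1 r (hseg hr) hr0 hr2 (lt_of_le_of_lt hc hr3)
    · push Not at hr2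
      obtain ⟨r', hr', hr'0⟩ := cross h2 hr2.le
      have hr'' : r' ∈ segment ℝ p (v m) :=
        (convex_segment _ _).segment_subset (left_mem_segment ℝ _ _) hr hr'
      exact A2 r' (hseg hr'') hr'0 (orient_nonneg_seg hr' h1.le hr0.ge)
        (lt_of_le_of_lt hc (orient_gt_seg hr' h3 hr3))

/-- the small triangle is inside -/
lemma small_inner (hc : CCW n v) {j : ℕ} (hj : j < n)
    (hD : 0 < orient (v (pv n j)) (v j) (v (nx n j))) {c : ℝ} (hc0 : 0 ≤ c)
    (hZ : ∀ m < n, 0 < orient (v (pv n j)) (v j) (v m) → 0 < orient (v j) (v (nx n j)) (v m) →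
      orient (v (nx n j)) (v (pv n j)) (v m) ≤ c)
    {p : ℝ × ℝ} (h1 : 0 < orient (v (pv n j)) (v j) p)
    (h2 : 0 < orient (v j) (v (nx n j)) p) (h3 : c < orient (v (nx n j)) (v (pv n j)) p) :
    p ∈ inner n v := by
  set u := v (pv n j) with hu
  set x := v j with hx
  set w := v (nx n j) with hw
  set S : Set (ℝ × ℝ) := {q | 0 < orient u x q} ∩ ({q | 0 < orient x w q} ∩
    {q | c < orient w u q}) with hS
  have hconv : Convex ℝ S := by
    refine (convex_pos _ _).inter ((convex_pos _ _).inter ?_)
    intro q hq r hr s t hs ht hst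
    exact orient_gt_seg (⟨s, t, hs, ht, hst, rfl⟩ : _ ∈ segment ℝ q r) hq hr
  have hdis : Disjoint S (curve n v) := by
    rw [Set.disjoint_left]
    rintro q ⟨hq1, hq2, hq3⟩ hq
    have := small_free h hj hD hc0 hZ hq hq1 hq2
    exact absurd hq3 (not_lt.2 this)
  have hDw : orient w u x = orient u x w := (orient_cyc _ _ _).symm
  have hsum := orient_sum u x w p
  -- a point near the corner
  have hcor := region_loc h hc ⟨j, hj, left_mem_segment ℝ _ _⟩ (IsLoc.V j hj rfl)
  have hray : ∃ᶠ q in 𝓝 x, q ∈ S := by
    apply frequently_of_path (y := p - x)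
    have : Ioo (0 : ℝ) 1 ∈ 𝓝[>] (0 : ℝ) := Ioo_mem_nhdsGT one_pos
    filter_upwards [this] with t ht
    have e : x + t • (p - x) = (1 - t) • x + t • p := by
      ext <;> simp <;> ring
    rw [e]
    refine ⟨?_, ?_, ?_⟩
    · show 0 < orient u x _
      rw [orient_comb _ _ _ _ (by ring), orient_self_right]
      nlinarith [mul_pos ht.1 h1]
    · show 0 < orient x w _
      rw [orient_comb _ _ _ _ (by ring), orient_self_left]
      nlinarith [mul_pos ht.1 h2]
    · show c < orient w u _
      rw [orient_comb _ _ _ _ (by ring), hDw]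
      nlinarith [ht.1, ht.2]
  obtain ⟨q, hqS, hq⟩ := (hray.and_eventually hcor).exists
  have hqin : q ∈ inner n v := by
    rw [hq.2]
    left
    exact ⟨hD, hqS.1, hqS.2.1⟩
  exact subset_inner h hconv.isPreconnected hdis hqS (inner_subset_region h hqin) ⟨h1, h2, h3⟩

/-- **Ear lemma.** -/
theorem ear (hc : CCW n v) (hg : Gen n v) (hn : 4 ≤ n) {j : ℕ} (hj : j < n)
    (hD : 0 < orient (v (pv n j)) (v j) (v (nx n j))) :
    Dg n v (pv n j) (nx n j) ∨ ∃ z < n, z ≠ j ∧ z ≠ pv n j ∧ z ≠ nx n j ∧ Dg n v j z ∧
      0 < orient (v (pv n j)) (v j) (v z) ∧ 0 < orient (v j) (v (nx n j)) (v z) ∧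
      0 < orient (v (nx n j)) (v (pv n j)) (v z) ∧
      orient (v (pv n z)) (v z) (v (nx n z)) < 0 := by
  classical
  have hn0 := pos h
  have hpj := pv_lt hn0 j
  have hnj := nx_lt hn0 j
  have npn : pv n j ≠ nx n j := by
    rcases pv_cases hj with ⟨a1, a2⟩ | ⟨a1, a2⟩ <;> rcases nx_cases hj with ⟨b1, b2⟩ | ⟨b1, b2⟩ <;>
      omega
  have njn : nx n j ≠ j := nx_ne h hj
  have njp : pv n j ≠ j := by
    intro he
    have := nx_pv hj
    rw [he] at this
    exact njn this
  set u := v (pv n j) with hu
  set x := v j with hx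
  set w := v (nx n j) with hw
  set Z : Finset ℕ := (Finset.range n).filter (fun m => 0 < orient u x (v m) ∧
    0 < orient x w (v m) ∧ 0 < orient w u (v m)) with hZd
  by_cases hZ : Z.Nonempty
  · right
    obtain ⟨z, hz, hmax⟩ := Finset.exists_max_image Z (fun m => orient w u (v m)) hZ
    obtain ⟨hzn, hz1, hz2, hz3⟩ := Finset.mem_filter.1 hz
    rw [Finset.mem_range] at hzn
    have hZ' : ∀ m < n, 0 < orient u x (v m) → 0 < orient x w (v m) →
        orient w u (v m) ≤ orient w u (v z) := by
      intro m hm m1 m2
      by_cases m3 : 0 < orient w u (v m)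
      · exact hmax m (Finset.mem_filter.2 ⟨Finset.mem_range.2 hm, m1, m2, m3⟩)
      · linarith
    have zj : z ≠ j := by
      rintro rfl
      rw [← hx, orient_self_right] at hz1
      exact lt_irrefl _ hz1
    have zp : z ≠ pv n j := by
      rintro rfl
      rw [← hu, orient_self_left] at hz1
      exact lt_irrefl _ hz1
    have zn : z ≠ nx n j := by
      rintro rfl
      rw [← hw, orient_self_right] at hz2
      exact lt_irrefl _ hz2
    have hsum := orient_sum u x w (v z)
    have hDw : orient w u x = orient u x w := (orient_cyc _ _ _).symm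
    have hdg : Dg n v j z := by
      rintro p ⟨s, t, hs, ht, hst, rfl⟩
      apply small_inner h hc hj hD hz3.le hZ'
      · rw [orient_comb _ _ _ _ hst, ← hu, ← hx, orient_self_right]
        nlinarith [mul_pos ht hz1]
      · rw [orient_comb _ _ _ _ hst, ← hw, ← hx, orient_self_left]
        nlinarith [mul_pos ht hz2]
      · rw [orient_comb _ _ _ _ hst, ← hw, ← hu, ← hx, hDw]
        have : s = 1 - t := by linarith
        subst this
        nlinarith
    refine ⟨z, hzn, zj, zp, zn, hdg, hz1, hz2, hz3, ?_⟩
    -- the neighbours of `z`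
    have hnb : ∀ k < n, (∀ᶠ t in 𝓝[>] (0 : ℝ), v z + t • (v k - v z) ∈ curve n v) →
        orient w u (v k) ≤ orient w u (v z) := by
      intro k hk hev
      by_contra hcon
      push Not at hcon
      have e : ∀ t : ℝ, v z + t • (v k - v z) = (1 - t) • v z + t • v k := by
        intro t
        ext <;> simp <;> ring
      have c1 : ∀ a b : ℝ × ℝ, Continuous fun t : ℝ => orient a b (v z + t • (v k - v z)) := by
        intro a b
        exact (continuous_orient a b).comp (by fun_prop)
      have ev1 : ∀ᶠ t in 𝓝[>] (0 : ℝ), 0 < orient u x (v z + t • (v k - v z)) :=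
        ((c1 u x).continuousAt.eventually_const_lt (by simpa using hz1)).filter_mono
          nhdsWithin_le_nhds
      have ev2 : ∀ᶠ t in 𝓝[>] (0 : ℝ), 0 < orient x w (v z + t • (v k - v z)) :=
        ((c1 x w).continuousAt.eventually_const_lt (by simpa using hz2)).filter_mono
          nhdsWithin_le_nhds
      obtain ⟨t, ⟨⟨⟨ht1, ht2⟩, ht3⟩, ht4⟩⟩ := (((hev.and ev1).and ev2).and
        self_mem_nhdsWithin).exists
      have := small_free h hj hD hz3.le hZ' ht1 ht2 ht3
      rw [e, orient_comb _ _ _ _ (by ring), ← hw, ← hu] at this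
      have ht0 : 0 < t := ht4
      nlinarith
    have hn1 : orient w u (v (nx n z)) ≤ orient w u (v z) := by
      apply hnb _ (nx_lt hn0 z)
      have : Ioo (0 : ℝ) 1 ∈ 𝓝[>] (0 : ℝ) := Ioo_mem_nhdsGT one_pos
      filter_upwards [this] with t ht
      refine ⟨z, hzn, 1 - t, t, by linarith [ht.2], ht.1.le, by ring, ?_⟩
      change (1 - t) • v z + t • v (nx n z) = _
      ext <;> simp <;> ring
    have hn2 : orient w u (v (pv n z)) ≤ orient w u (v z) := by
      apply hnb _ (pv_lt hn0 z)
      have : Ioo (0 : ℝ) 1 ∈ 𝓝[>] (0 : ℝ) := Ioo_mem_nhdsGT one_pos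
      filter_upwards [this] with t ht
      refine ⟨pv n z, pv_lt hn0 z, t, 1 - t, ht.1.le, by linarith [ht.2], by ring, ?_⟩
      change t • v (pv n z) + (1 - t) • v (nx n (pv n z)) = _
      rw [nx_pv hzn]
      ext <;> simp <;> ring
    -- reflex
    have hsz := gen' h hzn
    by_contra hcon
    push Not at hcon
    have hcz : 0 < orient (v (pv n z)) (v z) (v (nx n z)) := lt_of_le_of_ne hcon (Ne.symm hsz)
    have hcor := region_loc h hc ⟨z, hzn, left_mem_segment ℝ _ _⟩ (IsLoc.V z hzn rfl)
    have hray : ∃ᶠ q in 𝓝 (v z), ∃ t : ℝ, 0 < t ∧ q = v z + t • (x - v z) ∧ q ∈ inner n v := by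
      apply frequently_of_path (y := x - v z)
      have : Ioo (0 : ℝ) 1 ∈ 𝓝[>] (0 : ℝ) := Ioo_mem_nhdsGT one_pos
      filter_upwards [this] with t ht
      refine ⟨t, ht.1, rfl, hdg _ ⟨t, 1 - t, ht.1, by linarith [ht.2], by ring, ?_⟩⟩
      ext <;> simp [← hx] <;> ring
    obtain ⟨q, ⟨t, ht, hqe, hqi⟩, hq⟩ := (hray.and_eventually hcor).exists
    rw [hq.2] at hqi
    unfold lsV at hqi
    have hneg : ¬ orient (v (pv n z)) (v z) (v (nx n z)) < 0 := not_lt.2 hcz.le
    have hls : 0 < orient (v (pv n z)) (v z) q ∧ 0 < orient (v z) (v (nx n z)) q := by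
      rcases hqi with h5 | h5
      · exact h5.2
      · exact absurd h5.1 hneg
    rw [hqe, orient_add_smul_right, ray_left] at hls
    have k1 : 0 < orient (v (pv n z)) (v z) x := by
      by_contra h6
      push Not at h6
      nlinarith [hls.1]
    have k2 : 0 < orient (v z) (v (nx n z)) x := by
      by_contra h6
      push Not at h6
      nlinarith [hls.2]
    have hid : orient (v (pv n z)) (v z) (v (nx n z)) * (orient w u x - orient w u (v z)) =
        orient (v (pv n z)) (v z) x * (orient w u (v (nx n z)) - orient w u (v z)) +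
        orient (v z) (v (nx n z)) x * (orient w u (v (pv n z)) - orient w u (v z)) := by
      unfold orient; ring
    have l1 : 0 < orient (v (pv n z)) (v z) (v (nx n z)) *
        (orient w u x - orient w u (v z)) := mul_pos hcz (by rw [hDw]; linarith)
    have l2 := mul_nonneg k1.le (sub_nonneg.2 hn1)
    have l3 := mul_nonneg k2.le (sub_nonneg.2 hn2)
    nlinarith
  · left
    rw [Finset.not_nonempty_iff_eq_empty] at hZ
    have hZ' : ∀ m < n, 0 < orient u x (v m) → 0 < orient x w (v m) →
        orient w u (v m) ≤ 0 := by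
      intro m hm m1 m2
      by_contra m3
      push Not at m3
      have : m ∈ Z := Finset.mem_filter.2 ⟨Finset.mem_range.2 hm, m1, m2, m3⟩
      rw [hZ] at this
      simp at this
    have hside : ∀ s t : ℝ, 0 < s → 0 < t → s + t = 1 →
        0 < orient u x (s • u + t • w) ∧ 0 < orient x w (s • u + t • w) ∧
        orient w u (s • u + t • w) = 0 := by
      intro s t hs ht hst
      have hDx : orient x w u = orient u x w := orient_cyc _ _ _
      refine ⟨?_, ?_, ?_⟩
      · rw [orient_comb _ _ _ _ hst, orient_self_left]
        nlinarith [mul_pos ht hD]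
      · rw [orient_comb _ _ _ _ hst, orient_self_right, hDx]
        nlinarith [mul_pos hs hD]
      · rw [orient_comb _ _ _ _ hst, orient_self_right, orient_self_left]
        ring
    rintro p ⟨s, t, hs, ht, hst, rfl⟩
    obtain ⟨p1, p2, p3⟩ := hside s t hs ht hst
    have hcl : (s • u + t • w) ∈ region n v := by
      rw [← closure_inner h]
      have hray : ∃ᶠ q in 𝓝 (s • u + t • w), q ∈ inner n v := by
        apply frequently_of_path (y := x - (s • u + t • w))
        have : Ioo (0 : ℝ) 1 ∈ 𝓝[>] (0 : ℝ) := Ioo_mem_nhdsGT one_pos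
        filter_upwards [this] with r hr
        have e : (s • u + t • w) + r • (x - (s • u + t • w)) =
            (1 - r) • (s • u + t • w) + r • x := by
          ext <;> simp <;> ring
        have hDw : orient w u x = orient u x w := (orient_cyc _ _ _).symm
        rw [e]
        apply small_inner h hc hj hD le_rfl hZ'
        · rw [orient_comb _ _ _ _ (by ring), ← hu, ← hx, orient_self_right]
          nlinarith [mul_pos (show 0 < 1 - r by linarith [hr.2]) p1]
        · rw [orient_comb _ _ _ _ (by ring), ← hw, ← hx, orient_self_left]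
          nlinarith [mul_pos (show 0 < 1 - r by linarith [hr.2]) p2]
        · rw [orient_comb _ _ _ _ (by ring), hDw, p3]
          nlinarith [mul_pos hr.1 hD]
      exact mem_closure_iff_frequently.2 hray
    refine (by
      rw [region_eq h] at hcl
      rcases hcl with h5 | h5
      · exfalso
        obtain ⟨k, hk, hpk⟩ := h5
        have hnk := nx_lt hn0 k
        set p := s • u + t • w with hpd
        have hge : ∀ m < n, m ≠ pv n j → m ≠ nx n j → orient w u (v m) ≠ 0 := fun m hm m1 m2 =>
          hg _ hnj _ hpj m hm npn.symm (Ne.symm m2) (Ne.symm m1)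
        have hpv : ∀ m < n, p ≠ v m := by
          intro m hm he
          rw [he] at p1 p2 p3
          refine hge m hm ?_ ?_ p3
          · rintro rfl
            rw [← hu, orient_self_left] at p1
            exact lt_irrefl _ p1
          · rintro rfl
            rw [← hw, orient_self_right] at p2
            exact lt_irrefl _ p2
        -- an endpoint with positive value
        obtain ⟨m, hm, hseg, hm3⟩ : ∃ m < n, segment ℝ p (v m) ⊆ edge n v k ∧
            0 < orient w u (v m) := by
          by_cases hk3 : 0 < orient w u (v k)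
          · refine ⟨k, hk, ?_, hk3⟩
            exact (convex_segment _ _).segment_subset hpk (left_mem_segment ℝ _ _)
          · refine ⟨nx n k, hnk, ?_, ?_⟩
            · exact (convex_segment _ _).segment_subset hpk (right_mem_segment ℝ _ _)
            · by_contra hk4
              push Not at hk3 hk4
              obtain ⟨a, b, ha, hb, hab, hpe⟩ := hpk
              change a • v k + b • v (nx n k) = p at hpe
              have ha0 : 0 < a := by
                rcases eq_or_lt_of_le ha with h6 | h6
                · exfalso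
                  apply hpv _ hnk
                  rw [← hpe, ← h6, show b = 1 by linarith]
                  simp
                · exact h6
              have hb0 : 0 < b := by
                rcases eq_or_lt_of_le hb with h6 | h6
                · exfalso
                  apply hpv _ hk
                  rw [← hpe, ← h6, show a = 1 by linarith]
                  simp
                · exact h6
              rw [← hpe, orient_comb _ _ _ _ hab] at p3
              have z1 : a * orient w u (v k) ≤ 0 := mul_nonpos_of_nonneg_of_nonpos ha hk3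
              have z2 : b * orient w u (v (nx n k)) ≤ 0 := mul_nonpos_of_nonneg_of_nonpos hb hk4
              have z3 : orient w u (v k) = 0 := by
                have : a * orient w u (v k) = 0 := by linarith
                rcases mul_eq_zero.1 this with h6 | h6
                · linarith
                · exact h6
              have z4 : orient w u (v (nx n k)) = 0 := by
                have : b * orient w u (v (nx n k)) = 0 := by linarith
                rcases mul_eq_zero.1 this with h6 | h6
                · linarith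
                · exact h6
              have c1 : k = pv n j ∨ k = nx n j := by
                by_contra h6
                push Not at h6
                exact hge k hk h6.1 h6.2 z3
              have c2 : nx n k = pv n j ∨ nx n k = nx n j := by
                by_contra h6
                push Not at h6
                exact hge _ hnk h6.1 h6.2 z4
              rcases c1 with c1 | c1
              · rw [c1, nx_pv hj] at c2
                rcases c2 with c2 | c2
                · exact njp c2.symm
                · exact njn c2.symm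
              · rw [c1] at c2
                rcases c2 with c2 | c2
                · rcases pv_cases hj with ⟨a1, a2⟩ | ⟨a1, a2⟩ <;>
                    rcases nx_cases hj with ⟨b1, b2⟩ | ⟨b1, b2⟩ <;>
                    rcases nx_cases hnj with ⟨d1, d2⟩ | ⟨d1, d2⟩ <;> omega
                · exact nx_ne h hnj c2
        -- a point near `p` in the open triangle
        have e : ∀ r : ℝ, p + r • (v m - p) = (1 - r) • p + r • v m := by
          intro r
          ext <;> simp <;> ring
        have c1 : ∀ a b : ℝ × ℝ, Continuous fun r : ℝ => orient a b (p + r • (v m - p)) := by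
          intro a b
          exact (continuous_orient a b).comp (by fun_prop)
        have ev1 : ∀ᶠ r in 𝓝[>] (0 : ℝ), 0 < orient u x (p + r • (v m - p)) :=
          ((c1 u x).continuousAt.eventually_const_lt (by simpa using p1)).filter_mono
            nhdsWithin_le_nhds
        have ev2 : ∀ᶠ r in 𝓝[>] (0 : ℝ), 0 < orient x w (p + r • (v m - p)) :=
          ((c1 x w).continuousAt.eventually_const_lt (by simpa using p2)).filter_mono
            nhdsWithin_le_nhds
        have ev3 : Ioo (0 : ℝ) 1 ∈ 𝓝[>] (0 : ℝ) := Ioo_mem_nhdsGT one_pos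
        obtain ⟨r, ⟨hr1, hr2⟩, hr3⟩ := ((ev1.and ev2).and ev3).exists
        have hrm : p + r • (v m - p) ∈ curve n v := by
          refine ⟨k, hk, hseg ?_⟩
          rw [e]
          exact ⟨1 - r, r, by linarith [hr3.2], hr3.1.le, by ring, rfl⟩
        have := small_free h hj hD le_rfl hZ' hrm hr1 hr2
        rw [e, orient_comb _ _ _ _ (by ring), ← hw, ← hu, p3] at this
        nlinarith [mul_pos hr3.1 hm3]
      · exact h5)

end

end Pool.Agent.H81.FL
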